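import Pool.Agent.helper76.XP.Prox

/-!
# Two-generated groups with a contracting action on a Hausdorff space

Let `G = ⟨a, b⟩`, with no condition on the orders of `a` and `b`, act by homeomorphisms (faithfully
or not) on a Hausdorff space `X` (compact or not), and suppose that there are points `x`, `y` with
infinite orbits such that for all neighbourhoods `U` of `x` and `V` of `y` some element of `G` maps
the complement of `U` into `V`. Then `⟨a, b ^ g⟩` is infinite for infinitely many `g`.
-/

set_option autoImplicit false

namespace Pool.Agent.Results.MP_fd6eef_al.ContractingActions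

theorem result {G X : Type*} [Group G] [TopologicalSpace X] [T2Space X] [MulAction G X]
    [ContinuousConstSMul G X] (a b : G) (hgen : Subgroup.closure ({a, b} : Set G) = ⊤)
    (x y : X) (hx : (MulAction.orbit G x).Infinite) (hy : (MulAction.orbit G y).Infinite)
    (hc : ∀ U V : Set X, IsOpen U → x ∈ U → IsOpen V → y ∈ V →
      ∃ g : G, ∀ z, z ∉ U → g • z ∈ V) :
    {g : G | (Subgroup.closure ({a, g⁻¹ * b * g} : Set G) : Set G).Infinite}.Infinite :=
  Pool.Agent.Prox.main a b hgen x y hx hy hc

end Pool.Agent.Results.MP_fd6eef_al.ContractingActions
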