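import Pool.Agent.helper84.QI.AllT

/-!
# Two-generated groups with an involution whose centralizer has cyclic Sylow 2-subgroups

Let `G = ⟨a, b⟩` be infinite with `a ^ 2 = 1` and suppose that the Sylow 2-subgroups of the centralizer of `a` are cyclic.
Then `⟨a, b ^ g⟩` is infinite for infinitely many `g`. More generally `a` may be replaced by an involution `u` in `⟨a⟩` (or in `⟨b⟩`).
-/

set_option autoImplicit false

namespace Pool.Agent.Results.MP_fd6eef_al.CyclicSylow

theorem result (G : Type) [Group G] [Infinite G] (a b : G)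
    (hgen : Subgroup.closure ({a, b} : Set G) = ⊤)
    (h : (∃ u ∈ Subgroup.zpowers a, u ^ 2 = 1 ∧
        (∀ P : Sylow 2 (Subgroup.centralizer ({u} : Set G)), IsCyclic P) ∧
        ((Subgroup.centralizer ({u} : Set G) : Set G).Finite ∨
          ∃ k : G, (Subgroup.closure ({u, k⁻¹ * b * k} : Set G) : Set G).Infinite) ∧
        (u = a ∨ ¬ (Subgroup.centralizer ({b ^ 2} : Set G)).FiniteIndex)) ∨
      (∃ u ∈ Subgroup.zpowers b, u ^ 2 = 1 ∧
        (∀ P : Sylow 2 (Subgroup.centralizer ({u} : Set G)), IsCyclic P) ∧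
        ((Subgroup.centralizer ({u} : Set G) : Set G).Finite ∨
          ∃ k : G, (Subgroup.closure ({u, k⁻¹ * a * k} : Set G) : Set G).Infinite) ∧
        (u = b ∨ ¬ (Subgroup.centralizer ({a ^ 2} : Set G)).FiniteIndex))) :
    {g : G | (Subgroup.closure ({a, g⁻¹ * b * g} : Set G) : Set G).Infinite}.Infinite :=
  Pool.Agent.QI.main_cyclic G a b hgen h

end Pool.Agent.Results.MP_fd6eef_al.CyclicSylow
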