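import Pool.Agent.helper9.TH.Final

/-!
# Two-generated groups with arbitrarily large finite quotients

Let `G = ⟨a, b⟩` be infinite and let `p` be a prime such that `G` has normal subgroups `N` of
arbitrarily large finite index with `a ^ p ∈ N` (for instance `a ^ p = 1` and `G` is residually
finite). Then `⟨a, b ^ g⟩` is infinite for infinitely many `g`. The same is true with `b` in place
of `a`, and with a power `x` of `a` (or of `b`) in place of `a` if the centralizer of `x` is finite
or `⟨x, b ^ h⟩` is infinite for some `h` (which is the case for `x = a`, `h = 1`).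

The proof includes Thompson's normal `p`-complement theorem and Kegel's theorem that a
finite group with a splitting automorphism of prime order is nilpotent.
-/

set_option autoImplicit false

namespace Pool.Agent.Results.MP_fd6eef_al.FiniteQuotients

theorem result {G : Type*} [Group G] [Infinite G] (a b : G)
    (hgen : Subgroup.closure ({a, b} : Set G) = ⊤)
    (p : ℕ) (hp : p.Prime) (x : G)
    (hq : ∀ m : ℕ, ∃ N : Subgroup G, N.Normal ∧ N.FiniteIndex ∧ m ≤ N.index ∧ x ^ p ∈ N)
    (hx : (x ∈ Subgroup.zpowers a ∧
        (((Subgroup.centralizer ({x} : Set G) : Subgroup G) : Set G).Finite ∨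
          ∃ h : G, (Subgroup.closure ({x, h⁻¹ * b * h} : Set G) : Set G).Infinite)) ∨
      (x ∈ Subgroup.zpowers b ∧
        (((Subgroup.centralizer ({x} : Set G) : Subgroup G) : Set G).Finite ∨
          ∃ h : G, (Subgroup.closure ({a, h⁻¹ * x * h} : Set G) : Set G).Infinite))) :
    {g : G | (Subgroup.closure ({a, g⁻¹ * b * g} : Set G) : Set G).Infinite}.Infinite :=
  Pool.Agent.helper9.TH.final a b hgen p hp x hq hx

end Pool.Agent.Results.MP_fd6eef_al.FiniteQuotients
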