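import Pool.Agent.helper84.QI.All

/-!
# A counterexample gives an infinite simple group

Let `G = ⟨a, b⟩` be infinite with `⟨a, b ^ g⟩` infinite for only finitely many `g` (a counterexample to Q1). Then the centralizers of
`a` and `b` are finite and `G` has a finite normal subgroup `E` such that `H = G / E`, with the images of `a` and `b`, is again a
counterexample and is just infinite. If `a` or `b` has prime order (more generally if some element `x` of prime order of `⟨a⟩` or `⟨b⟩`
has a finite centralizer or generates an infinite subgroup together with some conjugate of the other generator) then `H` has a smallest nontrivial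
normal subgroup `M`, of finite index and with trivial centralizer, and `M` is the direct product of finitely many infinite finitely
generated simple groups, which are permuted transitively by `H`; a generator of prime order normalises all of them, and if both
generators have prime order then `M` is simple.
-/

set_option autoImplicit false

namespace Pool.Agent.Results.MP_fd6eef_al.Reduction

/-- the subgroup `g L g⁻¹` -/
def conj {H : Type} [Group H] (g : H) (L : Subgroup H) : Subgroup H := L.map (MulAut.conj g).toMonoidHom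

/-- `S` is a finite set of infinite finitely generated simple subgroups of `H`, permuted transitively by the conjugations of `H`;
the subgroup `M` generated by `S` is the internal direct product of the members of `S`, has finite index and trivial
centralizer in `H`, and is contained in every nontrivial normal subgroup of `H` -/
structure SimpleFactors {H : Type} [Group H] (S : Set (Subgroup H)) : Prop where
  finite : S.Finite
  nonempty : S.Nonempty
  simple : ∀ L ∈ S, IsSimpleGroup L
  infinite : ∀ L ∈ S, Infinite L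
  fg : ∀ L ∈ S, L.FG
  commute : ∀ L ∈ S, ∀ L' ∈ S, L ≠ L' → ∀ x ∈ L, ∀ y ∈ L', x * y = y * x
  independent : sSupIndep S
  conj_mem : ∀ g : H, ∀ L ∈ S, conj g L ∈ S
  transitive : ∀ L ∈ S, ∀ L' ∈ S, ∃ g : H, conj g L = L'
  finiteIndex : (sSup S).FiniteIndex
  least : ∀ N : Subgroup H, N.Normal → N ≠ ⊥ → sSup S ≤ N
  centralizer : Subgroup.centralizer ((sSup S : Subgroup H) : Set H) = ⊥

theorem result (G : Type) [Group G] [Infinite G] (a b : G)
    (hgen : Subgroup.closure ({a, b} : Set G) = ⊤)
    (hfin : {g : G | (Subgroup.closure ({a, g⁻¹ * b * g} : Set G) : Set G).Infinite}.Finite) :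
    (Subgroup.centralizer ({a} : Set G) : Set G).Finite ∧ (Subgroup.centralizer ({b} : Set G) : Set G).Finite ∧
    ∃ (E : Subgroup G) (_ : E.Normal), (E : Set G).Finite ∧
      {g : G ⧸ E | (Subgroup.closure ({(QuotientGroup.mk a : G ⧸ E), g⁻¹ * QuotientGroup.mk b * g} :
        Set (G ⧸ E)) : Set (G ⧸ E)).Infinite}.Finite ∧
      (∀ N : Subgroup (G ⧸ E), N.Normal → N ≠ ⊥ → N.FiniteIndex) ∧
      ((∃ p : ℕ, p.Prime ∧ ∃ x : G, x ^ p = 1 ∧
          ((x ∈ Subgroup.zpowers a ∧ ((Subgroup.centralizer ({x} : Set G) : Set G).Finite ∨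
              ∃ h : G, (Subgroup.closure ({x, h⁻¹ * b * h} : Set G) : Set G).Infinite)) ∨
            (x ∈ Subgroup.zpowers b ∧ ((Subgroup.centralizer ({x} : Set G) : Set G).Finite ∨
              ∃ h : G, (Subgroup.closure ({a, h⁻¹ * x * h} : Set G) : Set G).Infinite)))) →
        ∃ S : Set (Subgroup (G ⧸ E)), SimpleFactors S ∧
          (∀ L ∈ S, ∀ x : G ⧸ E, x = QuotientGroup.mk a ∨ x = QuotientGroup.mk b →
            ∃ s : ℕ, 1 ≤ s ∧ conj (x ^ s) L = L ∧ x ^ s ≠ 1) ∧
          (∀ p : ℕ, p.Prime → a ^ p = 1 → ∀ L ∈ S, conj (QuotientGroup.mk a : G ⧸ E) L = L) ∧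
          (∀ p : ℕ, p.Prime → b ^ p = 1 → ∀ L ∈ S, conj (QuotientGroup.mk b : G ⧸ E) L = L) ∧
          ∀ p q : ℕ, p.Prime → q.Prime → a ^ p = 1 → b ^ q = 1 → ∃ L, S = {L}) := by
  obtain ⟨h1, h2, E, hE, h3, h4, h5, h6⟩ := Pool.Agent.QI.t_TRD G a b hgen hfin
  refine ⟨h1, h2, E, hE, h3, h4, h5, fun h => ?_⟩
  obtain ⟨S, hS, h7⟩ := h6 h
  exact ⟨S, ⟨hS.fin, hS.ne, hS.sim, hS.inf, hS.fg, hS.com, hS.ind, hS.cnj, hS.tra, hS.ix, hS.least, hS.cen⟩, h7⟩

end Pool.Agent.Results.MP_fd6eef_al.Reduction
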